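import Pool.Agent.ERamsey.Block

/-!
Choice of a dyadic angle.
-/

namespace Pool.Agent.ERamsey

open Finset ComplexConjugate

theorem exists_dyadic_btwn {a b : ℝ} (h : a < b) : ∃ (j : ℕ) (r : ℤ), 1 ≤ j ∧
    a < r / 2 ^ j ∧ (r : ℝ) / 2 ^ j < b := by
  obtain ⟨j, hj⟩ := exists_pow_lt_of_lt_one (sub_pos.mpr h) (by norm_num : (1 / 2 : ℝ) < 1)
  refine ⟨j + 1, ⌊a * 2 ^ (j + 1)⌋ + 1, by omega, ?_, ?_⟩
  · rw [lt_div_iff₀ (by positivity)]
    push_cast
    exact Int.lt_floor_add_one _
  · rw [div_lt_iff₀ (by positivity)]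
    push_cast
    have h1 := Int.floor_le (a * 2 ^ (j + 1))
    have h2 : 1 < (b - a) * 2 ^ (j + 1) := by
      have h3 : (1 / 2 : ℝ) ^ j * 2 ^ (j + 1) = 2 := by
        rw [pow_succ, ← mul_assoc, ← mul_pow]
        norm_num
      have h4 : (1 / 2 : ℝ) ^ j * 2 ^ (j + 1) < (b - a) * 2 ^ (j + 1) :=
        mul_lt_mul_of_pos_right hj (by positivity)
      linarith
    linarith

/-- Choice of the dyadic angle. `p`, `q` are the lengths of the components of half of the
segment along the two sides. -/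
theorem exists_angle {p q X Y d : ℝ} (hp : 0 < p) (hq : 0 < q) (h : X + Y < d) :
    ∃ (j : ℕ) (c : ℝ) (u : rootsOfUnity (2 ^ j) ℂ), 1 ≤ j ∧ 0 < c ∧ c < 1 ∧
      ((u : ℂˣ) : ℂ) * conj (⟨p, q * c⟩ : ℂ) = ⟨p, q * c⟩ ∧ X + Y / c ^ 2 < d := by
  set th := Real.arctan (q / p) with hth
  have hth0 : 0 < th := by
    rw [hth, Real.arctan_pos]
    positivity
  have hth1 : th < Real.pi / 2 := Real.arctan_lt_pi_div_two _
  -- continuity
  set f : ℝ → ℝ := fun x => X + Y / (Real.tan x * p / q) ^ 2 with hf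
  have htan : Real.tan th = q / p := Real.tan_arctan _
  have hfth : f th < d := by
    simp only [hf, htan]
    rw [div_mul_cancel₀ _ hp.ne', div_self hq.ne', one_pow, div_one]
    exact h
  have hcont : ContinuousAt f th := by
    have h1 : ContinuousAt Real.tan th := by
      refine Real.continuousAt_tan.mpr ?_
      exact (Real.cos_pos_of_mem_Ioo ⟨by linarith, hth1⟩).ne'
    have h2 : ContinuousAt (fun x => (Real.tan x * p / q) ^ 2) th := by
      fun_prop
    refine continuousAt_const.add (continuousAt_const.div h2 ?_)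
    rw [htan, div_mul_cancel₀ _ hp.ne', div_self hq.ne']
    norm_num
  have hev : ∀ᶠ x in nhds th, f x < d := hcont.eventually_lt_const hfth
  obtain ⟨ε, hε, hball⟩ := Metric.eventually_nhds_iff.mp hev
  obtain ⟨j, r, hj, hr1, hr2⟩ := exists_dyadic_btwn
    (show max 0 (th - ε) / Real.pi < th / Real.pi by
      refine div_lt_div_of_pos_right ?_ Real.pi_pos
      rw [max_lt_iff]
      constructor <;> linarith)
  set x := Real.pi * (r / 2 ^ j) with hx
  have hx1 : max 0 (th - ε) < x := by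
    rw [div_lt_iff₀ Real.pi_pos] at hr1
    rw [hx]
    linarith
  have hx2 : x < th := by
    rw [lt_div_iff₀ Real.pi_pos] at hr2
    rw [hx]
    linarith
  have hx0 : 0 < x := lt_of_le_of_lt (le_max_left _ _) hx1
  have hxe : th - ε < x := lt_of_le_of_lt (le_max_right _ _) hx1
  have hfx : f x < d := by
    refine hball ?_
    rw [Real.dist_eq, abs_lt]
    constructor <;> linarith
  have hcos : 0 < Real.cos x := Real.cos_pos_of_mem_Ioo ⟨by linarith, by linarith⟩
  have hsin : 0 < Real.sin x := Real.sin_pos_of_pos_of_lt_pi hx0 (by linarith [Real.pi_pos])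
  have htan_pos : 0 < Real.tan x := Real.tan_pos_of_pos_of_lt_pi_div_two hx0 (by linarith)
  have htan_lt : Real.tan x < q / p := by
    rw [← htan]
    exact Real.tan_lt_tan_of_nonneg_of_lt_pi_div_two hx0.le (by linarith) hx2
  -- the root of unity
  have hu : Complex.exp (2 * x * Complex.I) ^ 2 ^ j = 1 := by
    rw [← Complex.exp_nat_mul]
    rw [Complex.exp_eq_one_iff]
    refine ⟨r, ?_⟩
    rw [hx]
    push_cast
    have : (2 : ℂ) ^ j ≠ 0 := pow_ne_zero _ two_ne_zero
    field_simp
  refine ⟨j, Real.tan x * p / q, rootsOfUnity.mkOfPowEq _ hu, hj, by positivity, ?_, ?_, hfx⟩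
  · rw [div_lt_one hq]
    rwa [lt_div_iff₀ hp] at htan_lt
  · rw [rootsOfUnity.coe_mkOfPowEq]
    have e1 : (⟨p, q * (Real.tan x * p / q)⟩ : ℂ) =
        (p / Real.cos x : ℝ) * Complex.exp (x * Complex.I) := by
      apply Complex.ext
      · rw [Complex.re_ofReal_mul, Complex.exp_ofReal_mul_I_re]
        field_simp
      · rw [Complex.im_ofReal_mul, Complex.exp_ofReal_mul_I_im, Real.tan_eq_sin_div_cos]
        field_simp
    rw [e1, map_mul, Complex.conj_ofReal, ← Complex.exp_conj, map_mul, Complex.conj_ofReal,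
      Complex.conj_I]
    rw [mul_left_comm, ← Complex.exp_add]
    congr 2
    ring

end Pool.Agent.ERamsey
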