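import Pool.Agent.ERamsey.Merge

/-!
The block system: orbits of `(D_{2^j} × Z₂) ≀ Z_{2^m}` acting on `(ℂ × ℝ)^{2^m}`.
-/

namespace Pool.Agent.ERamsey

open Finset ComplexConjugate

/-- Group index of one block: rotation, conjugation, sign. -/
abbrev Gam (j : ℕ) : Type := (rootsOfUnity (2 ^ j) ℂ) × Bool × Bool

/-- real sign of a Boolean -/
def sg (b : Bool) : ℝ := if b then -1 else 1

/-- conditional complex conjugation -/
noncomputable def cj (b : Bool) (z : ℂ) : ℂ := if b then conj z else z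

theorem cj_conj (b : Bool) (z : ℂ) : conj (cj b z) = cj (!b) z := by
  cases b <;> simp [cj]

theorem bool_not_of_ne {a b : Bool} (h : ¬ a = b) : (!a) = b := by
  revert h
  cases a <;> cases b <;> simp

theorem sg_not (b : Bool) : sg (!b) = - sg b := by
  cases b <;> simp [sg]

theorem sg_sq (b : Bool) : sg b ^ 2 = 1 := by
  cases b <;> simp [sg]

/-- the action of a group index on a point of `ℂ × ℝ` -/
noncomputable def act {j : ℕ} (γ : Gam j) (w : ℂ × ℝ) : ℂ × ℝ :=
  (((γ.1 : ℂˣ) : ℂ) * cj γ.2.1 w.1, sg γ.2.2 * w.2)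

/-- squared distance in `ℂ × ℝ` -/
noncomputable def dd (v w : ℂ × ℝ) : ℝ := ‖v.1 - w.1‖ ^ 2 + (v.2 - w.2) ^ 2

theorem dd_self (v : ℂ × ℝ) : dd v v = 0 := by simp [dd]

theorem dd_eq (v w : ℂ × ℝ) : dd v w = (v.1.re - w.1.re) ^ 2 + (v.1.im - w.1.im) ^ 2 +
    (v.2 - w.2) ^ 2 := by
  rw [dd, Complex.sq_norm, Complex.normSq_apply]
  simp only [Complex.sub_re, Complex.sub_im]
  ring

theorem norm_root {j : ℕ} (ξ : rootsOfUnity (2 ^ j) ℂ) : ‖(((ξ : ℂˣ)) : ℂ)‖ = 1 :=
  Complex.norm_eq_one_of_mem_rootsOfUnity ξ.2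

theorem conj_root {j : ℕ} (ξ : rootsOfUnity (2 ^ j) ℂ) :
    conj (((ξ : ℂˣ)) : ℂ) = (((ξ⁻¹ : rootsOfUnity (2 ^ j) ℂ) : ℂˣ) : ℂ) := by
  rw [Complex.conj_rootsOfUnity ξ.2]
  rfl

/-- one block -/
theorem ach_block (j : ℕ) {S : Type} [Finite S] (W : S → ℂ × ℝ) :
    Ach (fun a b : Gam j × S => dd (act a.1 (W a.2)) (act b.1 (W b.2)))
      (fun a b => a.2 = b.2) := by
  -- base
  have h0 : Ach (fun a b : Gam j × S => dd (act a.1 (W a.2)) (act b.1 (W b.2)))
      (⊥ : Setoid (Gam j × S)) := by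
    have := Ach.base (ι := Gam j × S) (κ := Fin 3)
      (fun a => ![(act a.1 (W a.2)).1.re, (act a.1 (W a.2)).1.im, (act a.1 (W a.2)).2])
    refine (this.comap id (fun a b => ?_) (fun a b h => h))
    rw [dd_eq, Fin.sum_univ_three]
    simp
  -- rotations
  obtain ⟨ζ, hζ⟩ := IsCyclic.exists_generator (α := rootsOfUnity (2 ^ j) ℂ)
  have h1 : Ach (fun a b : Gam j × S => dd (act a.1 (W a.2)) (act b.1 (W b.2)))
      (Setoid.ker (fun a : Gam j × S => (a.1.2.1, a.1.2.2, a.2))) := by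
    let g : Gam j × S → Gam j × S := fun a => ((ζ * a.1.1, a.1.2.1, a.1.2.2), a.2)
    have hg : ∀ (t : ℕ) a, g^[t] a = ((ζ ^ t * a.1.1, a.1.2.1, a.1.2.2), a.2) := by
      intro t
      induction t with
      | zero => intro a; simp
      | succ t ih =>
        intro a
        rw [Function.iterate_succ_apply', ih]
        simp only [g]
        rw [← mul_assoc, ← pow_succ']
    refine (h0.cyclic j g ?_ ?_ ?_).mono ?_
    · intro a b
      simp only [g, act, dd]
      rw [Subgroup.coe_mul, Subgroup.coe_mul, Units.val_mul, Units.val_mul, mul_assoc, mul_assoc,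
        ← mul_sub, norm_mul, norm_root, one_mul]
    · rintro a b hab
      have hab' : a = b := hab
      rw [hab']
    · intro a
      have hz : ζ ^ 2 ^ j = 1 := by
        have := ζ.2
        rw [mem_rootsOfUnity] at this
        exact Subtype.ext this
      rw [hg, hz, one_mul]
    · intro a b hab
      have hab' : (a.1.2.1, a.1.2.2, a.2) = (b.1.2.1, b.1.2.2, b.2) := hab
      simp only [Prod.mk.injEq] at hab'
      obtain ⟨e1, e2, e3⟩ := hab'
      obtain ⟨t, ht⟩ := (mem_powers_iff_mem_zpowers.mpr (hζ (b.1.1 * a.1.1⁻¹)) :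
        b.1.1 * a.1.1⁻¹ ∈ Submonoid.powers ζ)
      refine ⟨t, ?_⟩
      show g^[t] a = b
      rw [hg]
      have ht' : ζ ^ t = b.1.1 * a.1.1⁻¹ := ht
      rw [ht', inv_mul_cancel_right, e1, e2, e3]
  -- conjugation
  have h2 : Ach (fun a b : Gam j × S => dd (act a.1 (W a.2)) (act b.1 (W b.2)))
      (Setoid.ker (fun a : Gam j × S => (a.1.2.2, a.2))) := by
    let g : Gam j × S → Gam j × S := fun a => ((a.1.1⁻¹, !a.1.2.1, a.1.2.2), a.2)
    refine (h1.cyclic 1 g ?_ ?_ ?_).mono ?_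
    · intro a b
      simp only [g, act, dd]
      rw [← conj_root, ← conj_root, ← cj_conj, ← cj_conj, ← map_mul, ← map_mul, ← map_sub,
        RCLike.norm_conj]
    · intro a b hab
      have hab' : (a.1.2.1, a.1.2.2, a.2) = (b.1.2.1, b.1.2.2, b.2) := hab
      simp only [Prod.mk.injEq] at hab'
      obtain ⟨e1, e2, e3⟩ := hab'
      show (!a.1.2.1, a.1.2.2, a.2) = (!b.1.2.1, b.1.2.2, b.2)
      rw [e1, e2, e3]
    · intro a
      show (!!a.1.2.1, a.1.2.2, a.2) = (a.1.2.1, a.1.2.2, a.2)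
      rw [Bool.not_not]
    · intro a b hab
      have hab' : (a.1.2.2, a.2) = (b.1.2.2, b.2) := hab
      simp only [Prod.mk.injEq] at hab'
      obtain ⟨e2, e3⟩ := hab'
      by_cases e1 : a.1.2.1 = b.1.2.1
      · refine ⟨0, ?_⟩
        show (a.1.2.1, a.1.2.2, a.2) = (b.1.2.1, b.1.2.2, b.2)
        rw [e1, e2, e3]
      · refine ⟨1, ?_⟩
        show (!a.1.2.1, a.1.2.2, a.2) = (b.1.2.1, b.1.2.2, b.2)
        rw [e2, e3, bool_not_of_ne e1]
  -- sign
  let g : Gam j × S → Gam j × S := fun a => ((a.1.1, a.1.2.1, !a.1.2.2), a.2)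
  refine (h2.cyclic 1 g ?_ ?_ ?_).mono ?_
  · intro a b
    simp only [g, act, dd]
    rw [sg_not, sg_not]
    ring
  · intro a b hab
    have hab' : (a.1.2.2, a.2) = (b.1.2.2, b.2) := hab
    simp only [Prod.mk.injEq] at hab'
    obtain ⟨e2, e3⟩ := hab'
    show (!a.1.2.2, a.2) = (!b.1.2.2, b.2)
    rw [e2, e3]
  · intro a
    show (!!a.1.2.2, a.2) = (a.1.2.2, a.2)
    rw [Bool.not_not]
  · intro a b e3
    by_cases e1 : a.1.2.2 = b.1.2.2
    · refine ⟨0, ?_⟩
      show (a.1.2.2, a.2) = (b.1.2.2, b.2)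
      rw [e1, e3]
    · refine ⟨1, ?_⟩
      show (!a.1.2.2, a.2) = (b.1.2.2, b.2)
      rw [e3, bool_not_of_ne e1]

/-- The full system. -/
theorem ach_full (j m K : ℕ) [NeZero K] (hK : K = 2 ^ m) (W : ZMod K → ℂ × ℝ) :
    Ach (fun a b : ZMod K × (ZMod K → Gam j) =>
      ∑ t, dd (act (a.2 t) (W (t + a.1))) (act (b.2 t) (W (t + b.1))))
      (fun _ _ => True) := by
  have h1 : Ach (fun a b : ZMod K × (ZMod K → Gam j) =>
      ∑ t, dd (act (a.2 t) (W (t + a.1))) (act (b.2 t) (W (t + b.1))))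
      (Setoid.ker (fun a : ZMod K × (ZMod K → Gam j) => a.1)) := by
    have hp := (ach_block j W).pi (J := ZMod K)
    refine hp.comap (fun a t => (a.2 t, t + a.1)) ?_ ?_
    · intro a b
      rfl
    · intro a b hab t
      have hab' : a.1 = b.1 := hab
      show t + a.1 = t + b.1
      rw [hab']
  let g : ZMod K × (ZMod K → Gam j) → ZMod K × (ZMod K → Gam j) :=
    fun a => (a.1 + 1, fun t => a.2 (t + 1))
  have hg : ∀ (t : ℕ) a, (g^[t] a).1 = a.1 + t := by
    intro t
    induction t with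
    | zero => intro a; simp
    | succ t ih =>
      intro a
      rw [Function.iterate_succ_apply']
      show (g^[t] a).1 + 1 = _
      rw [ih]
      push_cast
      ring
  refine (h1.cyclic m g ?_ ?_ ?_).mono ?_
  · intro a b
    simp only [g]
    rw [← Equiv.sum_comp (Equiv.addRight (1 : ZMod K))
      (fun t => dd (act (a.2 t) (W (t + a.1))) (act (b.2 t) (W (t + b.1))))]
    refine Finset.sum_congr rfl (fun t _ => ?_)
    simp only [Equiv.coe_addRight]
    rw [add_assoc t 1 a.1, add_comm 1 a.1, add_assoc t 1 b.1, add_comm 1 b.1]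
  · intro a b hab
    have hab' : a.1 = b.1 := hab
    show a.1 + 1 = b.1 + 1
    rw [hab']
  · intro a
    show (g^[2 ^ m] a).1 = a.1
    rw [hg, ← hK, ZMod.natCast_self, add_zero]
  · intro a b _
    refine ⟨(b.1 - a.1).val, ?_⟩
    show (g^[(b.1 - a.1).val] a).1 = b.1
    rw [hg, ZMod.natCast_zmod_val]
    ring

/-- The two-point system. -/
theorem ach_two (N : ℝ) (hN : 0 ≤ N) :
    Ach (fun a b : Bool => if a = b then 0 else N) (fun _ _ => True) := by
  have h0 : Ach (fun a b : Bool => if a = b then 0 else N) (⊥ : Setoid Bool) := by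
    have := Ach.base (ι := Bool) (κ := Unit) (fun a _ => if a then Real.sqrt N else 0)
    refine (this.comap id (fun a b => ?_) (fun a b h => h))
    rw [Fintype.sum_unique]
    cases a <;> cases b <;> simp [Real.sq_sqrt hN]
  refine (h0.cyclic 1 (fun b => !b) ?_ ?_ ?_).mono ?_
  · intro a b
    cases a <;> cases b <;> simp
  · rintro a b hab
    have hab' : a = b := hab
    rw [hab']
  · intro a
    show (!!a) = a
    rw [Bool.not_not]
  · intro a b _
    by_cases e1 : a = b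
    · exact ⟨0, e1⟩
    · refine ⟨1, ?_⟩
      show (!a) = b
      rw [bool_not_of_ne e1]

end Pool.Agent.ERamsey
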