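import Pool.Agent.ERamsey.Angle

/-!
The six-point configuration: rectangle plus a pair.
-/

namespace Pool.Agent.ERamsey

open Finset ComplexConjugate InnerProductSpace

/-- Index type of the configuration: four vertices of the rectangle and two more points. -/
abbrev XI : Type := (Bool × Bool) ⊕ Bool

/-- coefficient along the first side -/
def cA (al : ℝ) : XI → ℝ
  | Sum.inl e => sg e.1
  | Sum.inr s => sg s * al

/-- coefficient along the second side -/
def cB (be : ℝ) : XI → ℝ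
  | Sum.inl e => sg e.2
  | Sum.inr s => sg s * be

/-- level -/
def cK : XI → ℝ
  | Sum.inl _ => 0
  | Sum.inr _ => 1

/-- The points. -/
def pts {V : Type} [NormedAddCommGroup V] [InnerProductSpace ℝ V] (c U W d : V) (al be : ℝ)
    (i : XI) : V :=
  c + cA al i • U + cB be i • W + cK i • d

theorem zmod_val_sub_one {K : ℕ} [NeZero K] {t : ZMod K} (ht : t ≠ 0) :
    ((t + -1).val : ℝ) = t.val - 1 := by
  have h1 : 1 ≤ t.val := Nat.one_le_iff_ne_zero.mpr (by rwa [Ne, ZMod.val_eq_zero])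
  have h2 : t + -1 = ((t.val - 1 : ℕ) : ZMod K) := by
    rw [Nat.cast_sub h1, ZMod.natCast_zmod_val]
    push_cast
    ring
  rw [h2, ZMod.val_natCast_of_lt (lt_of_le_of_lt (Nat.sub_le _ _) (ZMod.val_lt t))]
  push_cast [Nat.cast_sub h1]
  ring

theorem norm_sq_comb {V : Type} [NormedAddCommGroup V] [InnerProductSpace ℝ V] (U W d : V)
    (h : ⟪U, W⟫_ℝ = 0) (a b k : ℝ) :
    ‖a • U + b • W + k • d‖ ^ 2 = a ^ 2 * ‖U‖ ^ 2 + b ^ 2 * ‖W‖ ^ 2 + k ^ 2 * ‖d‖ ^ 2 +
      2 * a * k * ⟪d, U⟫_ℝ + 2 * b * k * ⟪d, W⟫_ℝ := by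
  rw [norm_add_sq_real, norm_add_sq_real, norm_smul, norm_smul, norm_smul, inner_add_left,
    real_inner_smul_left, real_inner_smul_left, real_inner_smul_left, real_inner_smul_right,
    real_inner_smul_right, real_inner_smul_right, h, real_inner_comm U d, real_inner_comm W d,
    mul_pow, mul_pow, mul_pow, Real.norm_eq_abs, Real.norm_eq_abs, Real.norm_eq_abs, sq_abs,
    sq_abs, sq_abs]
  ring

theorem ach_config {V : Type} [NormedAddCommGroup V] [InnerProductSpace ℝ V] (c U W d : V)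
    (al be : ℝ) (hU : U ≠ 0) (hW : W ≠ 0) (hUW : ⟪U, W⟫_ℝ = 0) (hal : 0 < al) (hbe : 0 < be)
    (hd : al * ⟪d, U⟫_ℝ + be * ⟪d, W⟫_ℝ = 0)
    (hlt : ⟪d, U⟫_ℝ ^ 2 / ‖U‖ ^ 2 + ⟪d, W⟫_ℝ ^ 2 / ‖W‖ ^ 2 < ‖d‖ ^ 2) :
    Ach (fun i j => dist (pts c U W d al be i) (pts c U W d al be j) ^ 2)
      (fun _ _ => True) := by
  set A := ‖U‖ with hA
  set B := ‖W‖ with hB
  have hA0 : 0 < A := norm_pos_iff.mpr hU
  have hB0 : 0 < B := norm_pos_iff.mpr hW
  set x := ⟪d, U⟫_ℝ with hx
  set y := ⟪d, W⟫_ℝ with hy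
  obtain ⟨j, cc, u, hj, hc0, hc1, hu, hE⟩ := exists_angle (p := al * A) (q := be * B)
    (by positivity) (by positivity) hlt
  set m1 := x / A with hm1
  set m2 := y / (cc * B) with hm2
  set c3 := Real.sqrt (1 - cc ^ 2) with hc3
  have hc3sq : c3 ^ 2 = 1 - cc ^ 2 := by
    rw [hc3, Real.sq_sqrt]
    nlinarith
  have hm1A : m1 * A = x := div_mul_cancel₀ _ hA0.ne'
  have hm2B : m2 * (cc * B) = y := div_mul_cancel₀ _ (by positivity)
  set E := ‖d‖ ^ 2 - m1 ^ 2 - m2 ^ 2 with hEdef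
  have hEpos : 0 < E := by
    have e1 : m1 ^ 2 = x ^ 2 / A ^ 2 := by rw [hm1, div_pow]
    have e2 : m2 ^ 2 = y ^ 2 / B ^ 2 / cc ^ 2 := by
      rw [hm2, div_pow, mul_pow, div_div, mul_comm (cc ^ 2)]
    rw [hEdef, e1, e2]
    linarith
  -- target coordinates of block 0
  set Z : XI → ℂ × ℝ := fun i => ((⟨A * cA al i + m1 * cK i, cc * B * cB be i + m2 * cK i⟩ : ℂ),
    c3 * B * cB be i) with hZ
  set WR : ℂ × ℝ := Z (Sum.inl (false, false)) with hWR
  set WP : ℂ × ℝ := Z (Sum.inr false) with hWP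
  -- block 0 distances
  have hblock : ∀ i i', dd (Z i) (Z i') =
      dist (pts c U W d al be i) (pts c U W d al be i') ^ 2 - (cK i - cK i') ^ 2 * E := by
    intro i i'
    have e1 : pts c U W d al be i - pts c U W d al be i' =
        (cA al i - cA al i') • U + (cB be i - cB be i') • W + (cK i - cK i') • d := by
      simp only [pts]
      module
    rw [dist_eq_norm, e1, norm_sq_comb U W d hUW, dd_eq]
    simp only [hZ]
    rw [← hA, ← hB, ← hx, ← hy, hEdef]
    have h3 : (c3 * B * cB be i - c3 * B * cB be i') ^ 2 =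
        (1 - cc ^ 2) * (B * (cB be i - cB be i')) ^ 2 := by
      rw [← hc3sq]; ring
    rw [h3, ← hm1A, ← hm2B]
    ring
  -- the chain
  obtain ⟨m, hm1', hmE⟩ : ∃ m : ℕ, 1 ≤ m ∧ dd WP WR / ((2 : ℝ) ^ m - 1) ≤ E := by
    obtain ⟨m, hm⟩ := exists_nat_gt (dd WP WR / E)
    refine ⟨m + 1, by omega, ?_⟩
    have h2 : (m : ℝ) + 1 ≤ 2 ^ m := by
      have := @Nat.lt_two_pow_self m
      exact_mod_cast this
    have h3 : (m : ℝ) ≤ 2 ^ (m + 1) - 1 := by
      rw [pow_succ]; nlinarith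
    have h4 : (0 : ℝ) < 2 ^ (m + 1) - 1 := by
      rw [pow_succ]
      have : (0 : ℝ) ≤ m := Nat.cast_nonneg m
      nlinarith
    rw [div_le_iff₀ h4]
    rw [div_lt_iff₀ hEpos] at hm
    nlinarith
  set K : ℕ := 2 ^ m with hK
  have hKne : NeZero K := ⟨by rw [hK]; positivity⟩
  have hK2 : 2 ≤ K := by
    rw [hK]
    calc 2 = 2 ^ 1 := by norm_num
      _ ≤ 2 ^ m := Nat.pow_le_pow_right (by norm_num) hm1'
  have hK1 : (0 : ℝ) < (K : ℝ) - 1 := by
    have : (2 : ℝ) ≤ K := by exact_mod_cast hK2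
    linarith
  have hKE : dd WP WR / ((K : ℝ) - 1) ≤ E := by
    rw [hK]; push_cast; exact hmE
  set N := E - dd WP WR / ((K : ℝ) - 1) with hN
  have hN0 : 0 ≤ N := by rw [hN]; linarith
  let Wc : ZMod K → ℂ × ℝ := fun t => WR + ((t.val : ℝ) / ((K : ℝ) - 1)) • (WP - WR)
  have hWc0 : Wc 0 = WR := by
    simp only [Wc, ZMod.val_zero, Nat.cast_zero, zero_div, zero_smul, add_zero]
  have hval : ((-1 : ZMod K).val : ℝ) = K - 1 := by
    obtain ⟨K', hK'⟩ : ∃ K', K = K' + 1 := ⟨K - 1, by omega⟩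
    clear_value K
    subst hK'
    rw [ZMod.val_neg_one]
    push_cast
    ring
  have hWcP : Wc (-1) = WP := by
    simp only [Wc, hval]
    rw [div_self hK1.ne', one_smul, add_sub_cancel]
  have hWstep : ∀ t : ZMod K, t ≠ 0 → dd (Wc (t + -1)) (Wc t) = dd WP WR / ((K : ℝ) - 1) ^ 2 := by
    intro t ht
    have e := zmod_val_sub_one ht
    rw [dd_eq, dd_eq]
    simp only [Wc, e, Prod.fst_add, Prod.snd_add, Prod.smul_fst, Prod.smul_snd, Prod.fst_sub,
      Prod.snd_sub, Complex.add_re, Complex.add_im, Complex.smul_re, Complex.smul_im,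
      Complex.sub_re, Complex.sub_im, smul_eq_mul]
    field_simp
    ring
  -- group elements
  have hneg : (-1 : ℂ) ^ 2 ^ j = 1 := by
    apply Even.neg_one_pow
    exact (Nat.even_pow.mpr ⟨even_two, by omega⟩)
  let ng : rootsOfUnity (2 ^ j) ℂ := rootsOfUnity.mkOfPowEq (-1) hneg
  have hng : ((ng : ℂˣ) : ℂ) = -1 := rootsOfUnity.coe_mkOfPowEq hneg
  let gR : Bool × Bool → Gam j := fun e => (if e.1 then ng else 1, xor e.1 e.2, e.2)
  let gP : Bool → Gam j := fun s => (if s then ng * u else 1, s, s)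
  have hgR : ∀ e, act (gR e) WR = Z (Sum.inl e) := by
    rintro ⟨e1, e2⟩
    cases e1 <;> cases e2 <;>
      simp [act, gR, hWR, hZ, cA, cB, cK, sg, cj, hng, Prod.ext_iff, Complex.ext_iff]
  have hPM : ((u : ℂˣ) : ℂ) * conj (⟨m1, m2⟩ : ℂ) = -⟨m1, m2⟩ := by
    set P : ℂ := ⟨al * A, be * B * cc⟩ with hP
    have hP0 : conj P ≠ 0 := by
      rw [Ne, map_eq_zero]
      intro h0
      have := congrArg Complex.re h0
      simp only [hP, Complex.zero_re] at this
      have : 0 < al * A := by positivity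
      linarith
    have horth : P * conj (⟨m1, m2⟩ : ℂ) = - (conj P * ⟨m1, m2⟩) := by
      have h0 : al * A * m1 + be * B * cc * m2 = 0 := by
        have : al * A * m1 + be * B * cc * m2 = al * (m1 * A) + be * (m2 * (cc * B)) := by ring
        rw [this, hm1A, hm2B]
        exact hd
      apply Complex.ext
      · simp only [hP, Complex.mul_re, Complex.conj_re, Complex.conj_im, Complex.neg_re]
        linarith
      · simp only [hP, Complex.mul_im, Complex.conj_re, Complex.conj_im, Complex.neg_im]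
        ring
    have h1 : conj P * (((u : ℂˣ) : ℂ) * conj (⟨m1, m2⟩ : ℂ)) = conj P * (-⟨m1, m2⟩) := by
      calc conj P * (((u : ℂˣ) : ℂ) * conj (⟨m1, m2⟩ : ℂ))
          = (((u : ℂˣ) : ℂ) * conj P) * conj (⟨m1, m2⟩ : ℂ) := by ring
        _ = P * conj (⟨m1, m2⟩ : ℂ) := by rw [hu]
        _ = _ := by rw [horth]; ring
    exact mul_left_cancel₀ hP0 h1
  have hgP : ∀ s, act (gP s) WP = Z (Sum.inr s) := by
    intro s
    cases s
    · simp [act, gP, hWP, hZ, cA, cB, cK, sg, cj]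
    · have e1 : (WP.1) = ⟨m1, m2⟩ + ⟨al * A, be * B * cc⟩ := by
        apply Complex.ext
        · simp only [hWP, hZ, cA, cK, sg, Complex.add_re]
          simp
          ring
        · simp only [hWP, hZ, cB, cK, sg, Complex.add_im]
          simp
          ring
      have e2 : (Z (Sum.inr true)).1 = ⟨m1, m2⟩ - ⟨al * A, be * B * cc⟩ := by
        apply Complex.ext
        · simp only [hZ, cA, cK, sg, Complex.sub_re]
          simp
          ring
        · simp only [hZ, cB, cK, sg, Complex.sub_im]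
          simp
          ring
      apply Prod.ext
      · rw [e2]
        simp only [act, gP, if_true, cj, e1, map_add]
        rw [Subgroup.coe_mul, Units.val_mul, hng, mul_add, mul_assoc, mul_assoc, hPM, hu]
        ring
      · simp [act, gP, hWP, hZ, cB, sg]
  -- the map
  let F : XI → (ZMod K × (ZMod K → Gam j)) × Bool := fun i =>
    match i with
    | Sum.inl e => ((0, fun t => if t = 0 then gR e else (1, false, false)), false)
    | Sum.inr s => ((-1, fun t => if t = 0 then gP s else (1, false, false)), true)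
  have hF0 : ∀ i, act ((F i).1.2 0) (Wc (0 + (F i).1.1)) = Z i := by
    rintro (e | s)
    · simp only [F, if_true, add_zero, hWc0]
      exact hgR e
    · simp only [F, if_true, zero_add, hWcP]
      exact hgP s
  have hact1 : ∀ w : ℂ × ℝ, act (((1, false, false)) : Gam j) w = w := by
    intro w
    simp [act, cj, sg]
  have hFt : ∀ i (t : ZMod K), t ≠ 0 → act ((F i).1.2 t) (Wc (t + (F i).1.1)) =
      Wc (t + (F i).1.1) := by
    rintro (e | s) t ht
    · simp only [F, if_neg ht, hact1]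
    · simp only [F, if_neg ht, hact1]
  have hrest : ∀ i i' (t : ZMod K), t ≠ 0 →
      dd (act ((F i).1.2 t) (Wc (t + (F i).1.1))) (act ((F i').1.2 t) (Wc (t + (F i').1.1))) =
      (cK i - cK i') ^ 2 * (dd WP WR / ((K : ℝ) - 1) ^ 2) := by
    intro i i' t ht
    rw [hFt i t ht, hFt i' t ht]
    rcases i with e | s <;> rcases i' with e' | s'
    · simp [F, cK, dd_self]
    · simp only [F, cK, add_zero]
      rw [show dd (Wc t) (Wc (t + -1)) = dd (Wc (t + -1)) (Wc t) by rw [dd_eq, dd_eq]; ring,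
        hWstep t ht]
      ring
    · simp only [F, cK, add_zero]
      rw [hWstep t ht]
      ring
    · simp [F, cK, dd_self]
  have hfull := (ach_full j m K hK Wc).prod (ach_two N hN0)
  refine hfull.comap F (fun i i' => ?_) (fun _ _ _ => ⟨trivial, trivial⟩)
  rw [← Finset.add_sum_erase _ _ (Finset.mem_univ (0 : ZMod K)), hF0, hF0, hblock,
    Finset.sum_congr rfl (fun t ht => hrest i i' t (Finset.ne_of_mem_erase ht)),
    Finset.sum_const, Finset.card_erase_of_mem (Finset.mem_univ _), Finset.card_univ, ZMod.card,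
    nsmul_eq_mul, Nat.cast_sub (by omega : 1 ≤ K)]
  have hlast : (if (F i).2 = (F i').2 then 0 else N) = (cK i - cK i') ^ 2 * N := by
    rcases i with e | s <;> rcases i' with e' | s' <;> simp [F, cK]
  rw [hlast, hN]
  have : ((K : ℝ) - 1) * ((cK i - cK i') ^ 2 * (dd WP WR / ((K : ℝ) - 1) ^ 2)) =
      (cK i - cK i') ^ 2 * (dd WP WR / ((K : ℝ) - 1)) := by
    field_simp
  push_cast
  rw [this]
  ring

end Pool.Agent.ERamsey
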