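import Mathlib

/-!
Congruent finite families in a finite-dimensional real inner product space are related by an
isometry of the whole space.
-/

namespace Pool.Agent.ERamsey

open InnerProductSpace

theorem exists_isometryEquiv_of_dist {V ι : Type*} [NormedAddCommGroup V] [InnerProductSpace ℝ V]
    [FiniteDimensional ℝ V] [Fintype ι] (x y : ι → V)
    (h : ∀ i j, dist (x i) (x j) = dist (y i) (y j)) :
    ∃ e : V ≃ᵢ V, ∀ i, e (x i) = y i := by
  classical
  rcases isEmpty_or_nonempty ι with hι | ⟨⟨i₀⟩⟩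
  · exact ⟨IsometryEquiv.refl V, fun i => (hι.false i).elim⟩
  set x' : ι → V := fun i => x i - x i₀ with hx'
  set y' : ι → V := fun i => y i - y i₀ with hy'
  have hinner : ∀ i j, ⟪x' i, x' j⟫_ℝ = ⟪y' i, y' j⟫_ℝ := by
    intro i j
    have e : ∀ (a b : V), ⟪a, b⟫_ℝ = (‖a‖ ^ 2 + ‖b‖ ^ 2 - ‖a - b‖ ^ 2) / 2 := by
      intro a b
      rw [norm_sub_sq_real]; ring
    rw [e, e]
    simp only [hx', hy', sub_sub_sub_cancel_right, ← dist_eq_norm]
    rw [h, h, h]
  let T₁ : (ι → ℝ) →ₗ[ℝ] V := Fintype.linearCombination ℝ x'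
  let T₂ : (ι → ℝ) →ₗ[ℝ] V := Fintype.linearCombination ℝ y'
  have hnorm : ∀ c, ‖T₁ c‖ = ‖T₂ c‖ := by
    intro c
    have : ‖T₁ c‖ ^ 2 = ‖T₂ c‖ ^ 2 := by
      simp only [T₁, T₂, Fintype.linearCombination_apply]
      rw [← real_inner_self_eq_norm_sq, ← real_inner_self_eq_norm_sq]
      simp only [sum_inner, inner_sum, real_inner_smul_left, real_inner_smul_right, hinner]
    exact (sq_eq_sq₀ (norm_nonneg _) (norm_nonneg _)).mp this
  have hker : LinearMap.ker T₁ ≤ LinearMap.ker T₂ := by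
    intro c hc
    rw [LinearMap.mem_ker] at hc ⊢
    rw [← norm_eq_zero, ← hnorm, hc, norm_zero]
  let L₀ : LinearMap.range T₁ →ₗ[ℝ] V :=
    ((LinearMap.ker T₁).liftQ T₂ hker) ∘ₗ (T₁.quotKerEquivRange.symm : _ →ₗ[ℝ] _)
  have hL₀ : ∀ c, L₀ ⟨T₁ c, LinearMap.mem_range_self T₁ c⟩ = T₂ c := by
    intro c
    have e1 : T₁.quotKerEquivRange.symm ⟨T₁ c, LinearMap.mem_range_self T₁ c⟩ =
        (LinearMap.ker T₁).mkQ c := by
      rw [LinearEquiv.symm_apply_eq]
      apply Subtype.ext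
      rw [Submodule.mkQ_apply, LinearMap.quotKerEquivRange_apply_mk]
    show ((LinearMap.ker T₁).liftQ T₂ hker) (T₁.quotKerEquivRange.symm _) = _
    rw [e1, Submodule.mkQ_apply, Submodule.liftQ_apply]
  let L : LinearMap.range T₁ →ₗᵢ[ℝ] V :=
    { L₀ with
      norm_map' := by
        rintro ⟨v, c, rfl⟩
        show ‖L₀ ⟨T₁ c, _⟩‖ = ‖T₁ c‖
        rw [hL₀, hnorm] }
  let L' : V ≃ₗᵢ[ℝ] V := L.extend.toLinearIsometryEquiv rfl
  have hL' : ∀ i, L' (x' i) = y' i := by
    intro i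
    have e1 : x' i = T₁ (Pi.single i 1) := by
      simp only [T₁]
      rw [Fintype.linearCombination_apply_single, one_smul]
    have e2 : y' i = T₂ (Pi.single i 1) := by
      simp only [T₂]
      rw [Fintype.linearCombination_apply_single, one_smul]
    have e3 : L' (x' i) = L.extend (x' i) := rfl
    rw [e3, e1, e2, ← hL₀]
    exact L.extend_apply ⟨T₁ (Pi.single i 1), LinearMap.mem_range_self T₁ _⟩
  refine ⟨(IsometryEquiv.subRight (x i₀)).trans
    (L'.toIsometryEquiv.trans (IsometryEquiv.addRight (y i₀))), fun i => ?_⟩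
  show L' (x i - x i₀) + y i₀ = y i
  have := hL' i
  simp only [hx', hy'] at this
  rw [this, sub_add_cancel]

end Pool.Agent.ERamsey
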