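import Mathlib

/-!
Euclidean Ramsey theory for orbits of finite `2`-groups: an elementary merging argument.
(Helper file for problem MP_e0af59_co.)
-/

namespace Pool.Agent.ERamsey

open Finset

/-- `Ach D r`: for every finite set `C` of colours there is a finite family of points of some
Euclidean space such that every `C`-colouring of its index set contains a copy of `(ι, D)`
(`D` = squared distances) on which the colour is constant along `r`. -/
def Ach {ι : Type} (D : ι → ι → ℝ) (r : ι → ι → Prop) : Prop :=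
  ∀ (C : Type) [Finite C], ∃ (P : Type) (_ : Finite P) (κ : Type) (_ : Fintype κ)
    (pt : P → κ → ℝ), ∀ c : P → C, ∃ φ : ι → P,
      (∀ i j, ∑ t, (pt (φ i) t - pt (φ j) t) ^ 2 = D i j) ∧
      ∀ i j, r i j → c (φ i) = c (φ j)

theorem Ach.base {ι κ : Type} [Finite ι] [Fintype κ] (y : ι → κ → ℝ) :
    Ach (fun i j => ∑ t, (y i t - y j t) ^ 2) (fun i j => i = j) := by
  intro C _
  refine ⟨ι, inferInstance, κ, inferInstance, y, fun c => ⟨id, fun i j => rfl, ?_⟩⟩
  rintro i j rfl
  rfl

theorem Ach.comap {ι ι' : Type} {D : ι → ι → ℝ} {r : ι → ι → Prop} (h : Ach D r) (f : ι' → ι)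
    {D' : ι' → ι' → ℝ} {r' : ι' → ι' → Prop} (hD : ∀ i j, D' i j = D (f i) (f j))
    (hr : ∀ i j, r' i j → r (f i) (f j)) : Ach D' r' := by
  intro C _
  obtain ⟨P, hP, κ, hκ, pt, h⟩ := h C
  refine ⟨P, hP, κ, hκ, pt, fun c => ?_⟩
  obtain ⟨φ, h1, h2⟩ := h c
  exact ⟨fun i => φ (f i), fun i j => by rw [h1, hD], fun i j hij => h2 _ _ (hr i j hij)⟩

theorem Ach.mono {ι : Type} {D : ι → ι → ℝ} {r r' : ι → ι → Prop} (h : Ach D r)
    (hr : ∀ i j, r' i j → r i j) : Ach D r' :=
  h.comap id (fun _ _ => rfl) hr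

theorem Ach.self_zero {ι : Type} {D : ι → ι → ℝ} {r : ι → ι → Prop} (h : Ach D r) (i : ι) :
    D i i = 0 := by
  obtain ⟨P, hP, κ, hκ, pt, h⟩ := h Unit
  obtain ⟨φ, h1, _⟩ := h (fun _ => ())
  rw [← h1 i i]
  simp

theorem Ach.scale {ι : Type} {D : ι → ι → ℝ} {r : ι → ι → Prop} (h : Ach D r) {l : ℝ}
    (hl : 0 ≤ l) : Ach (fun i j => l * D i j) r := by
  intro C _
  obtain ⟨P, hP, κ, hκ, pt, h⟩ := h C
  refine ⟨P, hP, κ, hκ, fun p t => Real.sqrt l * pt p t, fun c => ?_⟩
  obtain ⟨φ, h1, h2⟩ := h c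
  refine ⟨φ, fun i j => ?_, h2⟩
  show ∑ t, (Real.sqrt l * pt (φ i) t - Real.sqrt l * pt (φ j) t) ^ 2 = l * D i j
  rw [← h1 i j, Finset.mul_sum]
  refine Finset.sum_congr rfl fun t _ => ?_
  rw [← mul_sub, mul_pow, Real.sq_sqrt hl]

theorem Ach.prod {ι₁ ι₂ : Type} [Finite ι₂] {D₁ : ι₁ → ι₁ → ℝ} {D₂ : ι₂ → ι₂ → ℝ}
    {r₁ : ι₁ → ι₁ → Prop} {r₂ : ι₂ → ι₂ → Prop} (h₁ : Ach D₁ r₁) (h₂ : Ach D₂ r₂) :
    Ach (fun a b : ι₁ × ι₂ => D₁ a.1 b.1 + D₂ a.2 b.2)
      (fun a b => r₁ a.1 b.1 ∧ r₂ a.2 b.2) := by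
  intro C _
  obtain ⟨P₁, hP₁, κ₁, hκ₁, pt₁, h₁⟩ := h₁ (ι₂ → C)
  obtain ⟨P₂, hP₂, κ₂, hκ₂, pt₂, h₂⟩ := h₂ (P₁ → C)
  refine ⟨P₁ × P₂, inferInstance, κ₁ ⊕ κ₂, inferInstance,
    fun p t => Sum.elim (pt₁ p.1) (pt₂ p.2) t, fun c => ?_⟩
  obtain ⟨φ₂, h2a, h2b⟩ := h₂ (fun p₂ p₁ => c (p₁, p₂))
  obtain ⟨φ₁, h1a, h1b⟩ := h₁ (fun p₁ i₂ => c (p₁, φ₂ i₂))
  refine ⟨fun a => (φ₁ a.1, φ₂ a.2), fun a b => ?_, fun a b hab => ?_⟩
  · rw [Fintype.sum_sum_type]
    simp only [Sum.elim_inl, Sum.elim_inr]
    rw [h1a, h2a]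
  · have e1 : c (φ₁ a.1, φ₂ a.2) = c (φ₁ b.1, φ₂ a.2) := congrFun (h1b a.1 b.1 hab.1) a.2
    have e2 : c (φ₁ b.1, φ₂ a.2) = c (φ₁ b.1, φ₂ b.2) :=
      congrFun (h2b a.2 b.2 hab.2) (φ₁ b.1)
    show c (φ₁ a.1, φ₂ a.2) = c (φ₁ b.1, φ₂ b.2)
    rw [e1, e2]

theorem Ach.piFin {ι : Type} [Finite ι] {D : ι → ι → ℝ} {r : ι → ι → Prop} (h : Ach D r)
    (n : ℕ) : Ach (fun a b : Fin n → ι => ∑ s, D (a s) (b s))
      (fun a b => ∀ s, r (a s) (b s)) := by
  induction n with
  | zero =>
    intro C _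
    refine ⟨Unit, inferInstance, Empty, inferInstance, fun _ t => t.elim, fun c =>
      ⟨fun _ => (), fun i j => by simp, fun i j _ => rfl⟩⟩
  | succ n ih =>
    refine (h.prod ih).comap (fun a => (a 0, fun s => a s.succ)) (fun a b => ?_)
      (fun a b hab => ⟨hab 0, fun s => hab s.succ⟩)
    rw [Fin.sum_univ_succ]

theorem Ach.pi {ι J : Type} [Finite ι] [Fintype J] {D : ι → ι → ℝ} {r : ι → ι → Prop}
    (h : Ach D r) : Ach (fun a b : J → ι => ∑ s, D (a s) (b s))
      (fun a b => ∀ s, r (a s) (b s)) := by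
  have e := Fintype.equivFin J
  refine (h.piFin (Fintype.card J)).comap (fun a s => a (e.symm s)) (fun a b => ?_)
    (fun a b hab s => hab _)
  exact (Equiv.sum_comp e.symm (fun s => D (a s) (b s))).symm

/-- Merge the class of `i₀` with the class of `g i₀`. -/
theorem Ach.merge {ι : Type} [Finite ι] {D : ι → ι → ℝ} {r : Setoid ι} (h : Ach D r)
    (g : ι → ι) (hg : ∀ i j, D (g i) (g j) = D i j) (hr : ∀ i j, r i j → r (g i) (g j))
    (i₀ : ι) (h0 : r (g (g i₀)) i₀) :
    Ach D (fun i j => r i j ∨ ((r i i₀ ∨ r i (g i₀)) ∧ (r j i₀ ∨ r j (g i₀)))) := by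
  classical
  intro C _
  set k := Nat.card C + 1 with hk
  obtain ⟨P, hP, κ, hκ, pt, hpi⟩ := (h.scale (l := 1 / 2) (by norm_num)).piFin k C
  refine ⟨P, hP, κ, hκ, pt, fun c => ?_⟩
  obtain ⟨φ, h1, h2⟩ := hpi c
  -- pigeonhole
  obtain ⟨s, s', hss, hc⟩ : ∃ s s' : Fin k, s ≠ s' ∧
      c (φ (Function.update (fun _ => i₀) s (g i₀))) =
        c (φ (Function.update (fun _ => i₀) s' (g i₀))) := by
    have := Fintype.ofFinite C
    have hcard : Fintype.card C < Fintype.card (Fin k) := by
      rw [Fintype.card_fin, hk, Nat.card_eq_fintype_card]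
      omega
    obtain ⟨s, s', hne, he⟩ := Fintype.exists_ne_map_eq_of_card_lt
      (fun s : Fin k => c (φ (Function.update (fun _ => i₀) s (g i₀)))) hcard
    exact ⟨s, s', hne, he⟩
  set F : ι → (Fin k → ι) := fun i => Function.update (Function.update (fun _ => i₀) s i) s' (g i)
    with hF
  have hF' : ∀ i u, F i u = if u = s' then g i else if u = s then i else i₀ := by
    intro i u
    simp only [hF, Function.update_apply]
  refine ⟨fun i => φ (F i), fun i j => ?_, ?_⟩
  · rw [h1]
    have hzero : D i₀ i₀ = 0 := h.self_zero i₀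
    have hterm : ∀ u, 1 / 2 * D (F i u) (F j u) =
        (if u = s' then 1 / 2 * D i j else 0) + (if u = s then 1 / 2 * D i j else 0) := by
      intro u
      rw [hF', hF']
      by_cases hu' : u = s'
      · have : u ≠ s := by rw [hu']; exact hss.symm
        simp [hu', this, hg, hss.symm]
      · by_cases hu : u = s
        · simp [hu, hss]
        · simp [hu, hu', hzero]
    show ∑ u, 1 / 2 * D (F i u) (F j u) = D i j
    rw [Finset.sum_congr rfl (fun u _ => hterm u), Finset.sum_add_distrib,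
      Finset.sum_ite_eq', Finset.sum_ite_eq']
    simp only [Finset.mem_univ, if_true]
    ring
  · -- colours
    have key : ∀ i j, r i j → c (φ (F i)) = c (φ (F j)) := by
      intro i j hij
      refine h2 _ _ (fun u => ?_)
      rw [hF', hF']
      split_ifs
      · exact hr _ _ hij
      · exact hij
      · exact r.refl _
    -- class of i₀ ↦ word with g i₀ at s'
    have hA : ∀ i, r i i₀ → c (φ (F i)) = c (φ (Function.update (fun _ => i₀) s' (g i₀))) := by
      intro i hi
      refine h2 _ _ (fun u => ?_)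
      rw [hF', Function.update_apply]
      split_ifs
      · exact hr _ _ hi
      · exact hi
      · exact r.refl _
    have hB : ∀ i, r i (g i₀) → c (φ (F i)) = c (φ (Function.update (fun _ => i₀) s (g i₀))) := by
      intro i hi
      refine h2 _ _ (fun u => ?_)
      rw [hF', Function.update_apply]
      by_cases hu' : u = s'
      · have : u ≠ s := by rw [hu']; exact hss.symm
        rw [if_pos hu', if_neg this]
        exact r.trans (hr _ _ hi) h0
      · rw [if_neg hu']
        split_ifs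
        · exact hi
        · exact r.refl _
    have hAB : ∀ i, (r i i₀ ∨ r i (g i₀)) →
        c (φ (F i)) = c (φ (Function.update (fun _ => i₀) s' (g i₀))) := by
      rintro i (hi | hi)
      · exact hA i hi
      · rw [hB i hi, hc]
    rintro i j (hij | ⟨hi, hj⟩)
    · exact key i j hij
    · rw [hAB i hi, hAB j hj]

/-- The equivalence relation of `Ach.merge`. -/
def mergeSetoid {ι : Type} (r : Setoid ι) (a b : ι) : Setoid ι where
  r i j := r i j ∨ ((r i a ∨ r i b) ∧ (r j a ∨ r j b))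
  iseqv := by
    refine ⟨fun i => Or.inl (r.refl i), ?_, ?_⟩
    · rintro i j (h | ⟨h1, h2⟩)
      · exact Or.inl (r.symm h)
      · exact Or.inr ⟨h2, h1⟩
    · rintro i j l (h | ⟨h1, h2⟩) (h' | ⟨h1', h2'⟩)
      · exact Or.inl (r.trans h h')
      · refine Or.inr ⟨?_, h2'⟩
        rcases h1' with h1' | h1'
        · exact Or.inl (r.trans h h1')
        · exact Or.inr (r.trans h h1')
      · refine Or.inr ⟨h1, ?_⟩
        rcases h2 with h2 | h2
        · exact Or.inl (r.trans (r.symm h') h2)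
        · exact Or.inr (r.trans (r.symm h') h2)
      · exact Or.inr ⟨h1, h2'⟩

/-- Merge all classes with their images under `g`, when `g²` preserves each class. -/
theorem Ach.mergeAll {ι : Type} [Finite ι] {D : ι → ι → ℝ} {r : Setoid ι} (h : Ach D r)
    (g : ι → ι) (hg : ∀ i j, D (g i) (g j) = D i j) (hr : ∀ i j, r i j → r (g i) (g j))
    (h0 : ∀ i, r (g (g i)) i) :
    ∃ r' : Setoid ι, Ach D r' ∧ (∀ i j, r i j → r' i j) ∧ (∀ i, r' i (g i)) := by
  classical
  have := Fintype.ofFinite ι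
  have main : ∀ S : Finset ι, ∃ r' : Setoid ι, Ach D r' ∧ (∀ i j, r i j → r' i j) ∧
      (∀ i j, r' i j → r' (g i) (g j)) ∧ (∀ i ∈ S, r' i (g i)) := by
    intro S
    induction S using Finset.induction_on with
    | empty => exact ⟨r, h, fun i j h => h, hr, by simp⟩
    | insert a S ha ih =>
      obtain ⟨r₁, h1, h2, h3, h4⟩ := ih
      have h00 : ∀ i, r₁ (g (g i)) i := fun i => h2 _ _ (h0 i)
      refine ⟨mergeSetoid r₁ a (g a), h1.merge g hg h3 a (h00 a), fun i j hij => Or.inl (h2 i j hij),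
        ?_, ?_⟩
      · rintro i j (hij | ⟨hi, hj⟩)
        · exact Or.inl (h3 _ _ hij)
        · have aux : ∀ i, (r₁ i a ∨ r₁ i (g a)) → (r₁ (g i) a ∨ r₁ (g i) (g a)) := by
            rintro i (hi | hi)
            · exact Or.inr (h3 _ _ hi)
            · exact Or.inl (r₁.trans (h3 _ _ hi) (h00 a))
          exact Or.inr ⟨aux i hi, aux j hj⟩
      · intro i hi
        rw [Finset.mem_insert] at hi
        rcases hi with rfl | hi
        · exact Or.inr ⟨Or.inl (r₁.refl _), Or.inr (r₁.refl _)⟩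
        · exact Or.inl (h4 i hi)
  obtain ⟨r', h1, h2, _, h4⟩ := main Finset.univ
  exact ⟨r', h1, h2, fun i => h4 i (Finset.mem_univ i)⟩

/-- Merge along the cyclic group generated by `g`, when `g^(2^m)` preserves each class. -/
theorem Ach.cyclic {ι : Type} [Finite ι] {D : ι → ι → ℝ} {r : Setoid ι} (h : Ach D r)
    (m : ℕ) (g : ι → ι) (hg : ∀ i j, D (g i) (g j) = D i j)
    (hr : ∀ i j, r i j → r (g i) (g j)) (h0 : ∀ i, r (g^[2 ^ m] i) i) :
    Ach D (fun i j => ∃ t : ℕ, r (g^[t] i) j) := by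
  have iter : ∀ (g : ι → ι) (r : Setoid ι), (∀ i j, r i j → r (g i) (g j)) →
      ∀ (t : ℕ) i j, r i j → r (g^[t] i) (g^[t] j) := by
    intro g r hr t
    induction t with
    | zero => intro i j hij; exact hij
    | succ t ih =>
      intro i j hij
      rw [Function.iterate_succ_apply', Function.iterate_succ_apply']
      exact hr _ _ (ih i j hij)
  induction m generalizing g with
  | zero =>
    refine h.mono ?_
    rintro i j ⟨t, ht⟩
    have h0' : ∀ i, r (g i) i := fun i => h0 i
    have : ∀ (t : ℕ) i, r (g^[t] i) i := by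
      intro t
      induction t with
      | zero => intro i; exact r.refl _
      | succ t ih =>
        intro i
        rw [Function.iterate_succ_apply']
        exact r.trans (h0' _) (ih i)
    exact r.trans (r.symm (this t i)) ht
  | succ m ih =>
    have hit : ∀ (t : ℕ) i, (g^[2])^[t] i = g^[2 * t] i := by
      intro t i
      rw [← Function.iterate_mul]
    have ih' := ih (g^[2]) (fun i j => by
        simp only [Function.iterate_succ, Function.iterate_zero, Function.comp, id]
        rw [hg, hg]) (iter g r hr 2) (fun i => by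
        rw [hit, ← pow_succ']
        exact h0 i)
    -- the relation is an equivalence relation
    have hper : ∀ (q : ℕ) i, r (g^[2 ^ (m + 1) * q] i) i := by
      intro q
      induction q with
      | zero => intro i; exact r.refl _
      | succ q ihq =>
        intro i
        rw [Nat.mul_succ, Function.iterate_add_apply]
        exact r.trans (ihq _) (h0 i)
    let r₁ : Setoid ι :=
      { r := fun i j => ∃ t : ℕ, r ((g^[2])^[t] i) j
        iseqv := by
          refine ⟨fun i => ⟨0, r.refl i⟩, ?_, ?_⟩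
          · rintro i j ⟨t, ht⟩
            -- go back: apply g^[2 * (2^(m+1) * t - t)]
            refine ⟨2 ^ m * t * 2 - t, ?_⟩
            rw [hit] at ht
            rw [hit]
            have hle : t ≤ 2 ^ m * t * 2 := by
              have : 1 ≤ 2 ^ m := Nat.one_le_two_pow
              nlinarith
            have e := iter g r hr (2 * (2 ^ m * t * 2 - t)) _ _ ht
            rw [← Function.iterate_add_apply] at e
            have e2 : 2 * (2 ^ m * t * 2 - t) + 2 * t = 2 ^ (m + 1) * (2 * t) := by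
              rw [pow_succ]
              zify [hle]
              ring
            rw [e2] at e
            exact r.trans (r.symm e) (hper _ _)
          · rintro i j l ⟨t, ht⟩ ⟨t', ht'⟩
            refine ⟨t' + t, ?_⟩
            rw [Function.iterate_add_apply]
            exact r.trans (iter (g^[2]) r (iter g r hr 2) t' _ _ ht) ht' }
    obtain ⟨r', h1, h2, h3⟩ := Ach.mergeAll (r := r₁) ih' g hg (by
      rintro i j ⟨t, ht⟩
      refine ⟨t, ?_⟩
      have e := hr _ _ ht
      rw [hit] at e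
      rw [hit, ← Function.iterate_succ_apply, Function.iterate_succ_apply']
      exact e) (by
      intro i
      refine r₁.symm ⟨1, r.refl _⟩)
    refine h1.mono ?_
    rintro i j ⟨t, ht⟩
    have hall : ∀ (t : ℕ) i, r' i (g^[t] i) := by
      intro t
      induction t with
      | zero => intro i; exact r'.refl _
      | succ t iht =>
        intro i
        rw [Function.iterate_succ_apply']
        exact r'.trans (iht i) (h3 _)
    exact r'.trans (hall t i) (h2 _ _ ⟨0, ht⟩)

end Pool.Agent.ERamsey
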